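import Pool.Agent.Helper55.MG.Covers

/-! # All covers of the variety of abelian m-groups -/

namespace Pool.Agent.Results.MP_93d4d3_al.AllCovers

open Pool.Helper55.MG

theorem list_iff (X : Set MGrp) : MCovers X MAb ↔
    (∃ B ∈ special, X = mgen (MAb ∪ {B})) ∨ ∃ V ∈ oCovers, X = mgen (gD '' V) := by
  rw [classification]
  constructor
  · rintro (⟨p, hp, rfl⟩ | rfl | rfl | rfl | h)
    · exact Or.inl ⟨_, Or.inl ⟨p, hp, rfl⟩, rfl⟩
    · exact Or.inl ⟨_, Or.inr (Or.inl rfl), rfl⟩
    · exact Or.inl ⟨_, Or.inr (Or.inr (Or.inl rfl)), rfl⟩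
    · exact Or.inl ⟨_, Or.inr (Or.inr (Or.inr rfl)), rfl⟩
    · exact Or.inr h
  · rintro (⟨B, ⟨p, hp, rfl⟩ | rfl | rfl | rfl, rfl⟩ | h)
    · exact Or.inl ⟨p, hp, rfl⟩
    · exact Or.inr (Or.inl rfl)
    · exact Or.inr (Or.inr (Or.inl rfl))
    · exact Or.inr (Or.inr (Or.inr (Or.inl rfl)))
    · exact Or.inr (Or.inr (Or.inr (Or.inr h)))

/-- **The covers of the variety `𝒜` of abelian m-groups.**

A variety `X` of m-groups covers `𝒜` if and only if
* `X` is generated by `𝒜` and one m-group `B` from the list `special`, that is, `B` is one of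
  `S(p, 0)` for a prime `p`, `S(2, 1)`, `N`, `W`; or
* `X` is generated by the doubles `D(H)` of all members `H` of a variety `V` of lattice-ordered
  groups that covers the variety of abelian lattice-ordered groups and contains a totally
  ordered group that is not solvable.

Different `B` give different varieties. Two such `V` and `V'` give the same variety of m-groups
exactly when `V' = V` or `V'` is obtained from `V` by reversing the order. All members of the
varieties of the first kind are solvable, and all solvable members of the varieties of the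
second kind are abelian. -/
theorem result :
    (∀ X : Set MGrp, MCovers X MAb ↔
      (∃ B ∈ special, X = mgen (MAb ∪ {B})) ∨ ∃ V ∈ oCovers, X = mgen (gD '' V)) ∧
    (∀ B ∈ special, ∀ B' ∈ special, mgen (MAb ∪ {B}) = mgen (MAb ∪ {B'}) → B = B') ∧
    (∀ V ∈ oCovers, ∀ V' ∈ oCovers,
      (mgen (gD '' V) = mgen (gD '' V') ↔ V' = V ∨ V' = {H | opp H ∈ V})) ∧
    (∀ B ∈ special, ∀ G ∈ mgen (MAb ∪ {B}), Group.IsSolvable G.carrier) ∧
    (∀ V ∈ oCovers, ∀ G ∈ mgen (gD '' V), Group.IsSolvable G.carrier → G ∈ MAb) :=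
  ⟨list_iff, fun _ hB _ hB' => special_inj hB hB', fun _ hV _ hV' => dbl_eq_iff hV hV',
    fun _ hB _ hG => special_metab hB hG, fun _ hV _ hG => solvable_abelian hV hG⟩

end Pool.Agent.Results.MP_93d4d3_al.AllCovers
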